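import Mathlib

set_option linter.all false

namespace Pool.Agent.Results.MP_669823_co.FullCenters

open Finset

/-- the word with letter `a` at place `i` and `0` elsewhere -/
abbrev e {n : ℕ} (i : Fin n) (a : ZMod 3) : Fin n → ZMod 3 := Pi.single i a

lemma e_add {n : ℕ} (x : Fin n → ZMod 3) (i : Fin n) (a b : ZMod 3) :
    x + e i a + e i b = x + e i (a + b) := by
  rw [add_assoc, ← Pi.single_add]

lemma e_zero {n : ℕ} (x : Fin n → ZMod 3) (i : Fin n) : x + e i 0 = x := by
  simp [e]

lemma z3_double : ∀ s : ZMod 3, s + s = -s := by decide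
lemma z3_neg2 : ∀ s : ZMod 3, -s + -s = s := by decide
lemma z3_cases : ∀ s t : ZMod 3, s ≠ 0 → t ≠ 0 → t = s ∨ t = -s := by decide
lemma z3_cases3 : ∀ s t : ZMod 3, s ≠ 0 → t = 0 ∨ t = s ∨ t = -s := by decide
lemma z3_ne_neg : ∀ s : ZMod 3, s ≠ 0 → s ≠ -s := by decide
lemma z3_neg_ne : ∀ s : ZMod 3, s ≠ 0 → -s ≠ 0 := by decide
lemma z3_dbl_ne : ∀ s : ZMod 3, s ≠ 0 → s + s ≠ 0 := by decide
lemma z3_one : (1 : ZMod 3) ≠ 0 := by decide

/-- every vertex has at most one neighbour, additive form -/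
def D1 {n : ℕ} (p : (Fin n → ZMod 3) → Prop) : Prop :=
  ∀ x i j s t, p x → s ≠ 0 → t ≠ 0 → p (x + e i s) → p (x + e j t) → i = j ∧ s = t

/-- all neighbours of `z` are in the set -/
def Fc {n : ℕ} (p : (Fin n → ZMod 3) → Prop) (z : Fin n → ZMod 3) : Prop :=
  ∀ j t, t ≠ 0 → p (z + e j t)

section loc
variable {n : ℕ} {p : (Fin n → ZMod 3) → Prop}

lemma w2 (hD : D1 p) {z : Fin n → ZMod 3} (hz : Fc p z) {i j : Fin n} (hij : i ≠ j)
    {s t : ZMod 3} (hs : s ≠ 0) (ht : t ≠ 0) : ¬ p (z + e i s + e j t) := by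
  intro h
  have h2 : p (z + e i s + e i s) := by
    rw [e_add]; exact hz _ _ (z3_dbl_ne s hs)
  exact hij (hD _ _ _ _ _ (hz i s hs) hs ht h2 h).1

/-- direction `i` is met: every line in direction `i` contains a point of the set -/
def Met (p : (Fin n → ZMod 3) → Prop) (i : Fin n) : Prop := ∀ x, ∃ s, p (x + e i s)

lemma third (hD : D1 p) {i : Fin n} (hi : Met p i) {x : Fin n → ZMod 3} {s : ZMod 3}
    (hs : s ≠ 0) (hx : p x) (hxs : p (x + e i s)) : Fc p (x + e i (-s)) := by
  intro j t ht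
  by_cases hij : j = i
  · subst hij
    rw [e_add]
    rcases z3_cases s t hs ht with h | h
    · subst h; rw [neg_add_cancel, e_zero]; exact hx
    · subst h; rw [z3_neg2]; exact hxs
  · obtain ⟨r, hr⟩ := hi (x + e i (-s) + e j t)
    rcases z3_cases3 s r hs with h | h | h
    · subst h; rwa [e_zero] at hr
    · exfalso
      subst h
      have : x + e i (-r) + e j t + e i r = x + e j t := by
        have h1 : x + e i (-r) + e j t + e i r = x + e i (-r) + e i r + e j t := by abel
        rw [h1, e_add, neg_add_cancel, e_zero]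
      rw [this] at hr
      exact hij (hD _ _ _ _ _ hx hs ht hxs hr).1.symm
    · exfalso
      subst h
      have : x + e i (-s) + e j t + e i (-s) = x + e i s + e j t := by
        have h1 : x + e i (-s) + e j t + e i (-s) = x + e i (-s) + e i (-s) + e j t := by abel
        rw [h1, e_add, z3_neg2]
      rw [this] at hr
      have h3 : p (x + e i s + e i (-s)) := by rw [e_add, add_neg_cancel, e_zero]; exact hx
      exact hij (hD _ _ _ _ _ hxs (z3_neg_ne s hs) ht h3 hr).1.symm

lemma trip_or (hD : D1 p) {z : Fin n → ZMod 3} (hz : Fc p z) {i j k : Fin n} (hk : Met p k)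
    (hij : i ≠ j) {a b c : ZMod 3} (ha : a ≠ 0) (hb : b ≠ 0) (hc : c ≠ 0) :
    p (z + e i a + e j b + e k c) ∨ p (z + e i a + e j b + e k (-c)) := by
  obtain ⟨r, hr⟩ := hk (z + e i a + e j b)
  rcases z3_cases3 c r hc with h | h | h
  · subst h; rw [e_zero] at hr; exact absurd hr (w2 hD hz hij ha hb)
  · subst h; exact Or.inl hr
  · subst h; exact Or.inr hr

lemma trip_not (hD : D1 p) {z : Fin n → ZMod 3} (hz : Fc p z) {i j k : Fin n} (hk : Met p k)
    (hij : i ≠ j) {a b c : ZMod 3} (ha : a ≠ 0) (hb : b ≠ 0) (hc : c ≠ 0)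
    (h1 : p (z + e i a + e j b + e k c)) (h2 : p (z + e i a + e j b + e k (-c))) : False := by
  have h3 : p (z + e i a + e j b + e k c + e k c) := by rw [e_add, z3_double]; exact h2
  have h4 := third hD hk hc h1 h3
  rw [e_add, add_neg_cancel, e_zero] at h4
  have h5 := h4 i a ha
  have h6 : z + e i a + e j b + e i a = z + e i (a + a) + e j b := by
    rw [← e_add]; abel
  rw [h6] at h5
  exact w2 hD hz hij (z3_dbl_ne a ha) hb h5

lemma quad (hD : D1 p) {z : Fin n → ZMod 3} (hz : Fc p z) {i j k l : Fin n}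
    (hi : Met p i) (hj : Met p j) (hk : Met p k) (hl : Met p l)
    (hij : i ≠ j) (hik : i ≠ k) (hil : i ≠ l) (hjk : j ≠ k) (hjl : j ≠ l) (hkl : k ≠ l) :
    ∃ a b c d : ZMod 3, a ≠ 0 ∧ b ≠ 0 ∧ c ≠ 0 ∧ d ≠ 0 ∧
      Fc p (z + e i a + e j b + e k c + e l d) := by
  by_contra hne
  push Not at hne
  have h1 : (1 : ZMod 3) ≠ 0 := z3_one
  have h1' : (-1 : ZMod 3) ≠ 0 := by decide
  -- choose c with (1,1,c) not in the set
  obtain ⟨c, hc, hqc⟩ : ∃ c : ZMod 3, c ≠ 0 ∧ ¬ p (z + e i 1 + e j 1 + e k c) := by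
    by_contra hcon
    push Not at hcon
    exact trip_not hD hz hk hij h1 h1 h1 (hcon 1 h1) (hcon (-1) h1')
  -- toggles in general
  have tog_i : ∀ {j' k' : Fin n} {b c a : ZMod 3}, j' ≠ k' → b ≠ 0 → c ≠ 0 → a ≠ 0 →
      ¬ p (z + e i a + e j' b + e k' c) → p (z + e i (-a) + e j' b + e k' c) := by
    intro j' k' b c a hjk' hb hc ha hn
    have := trip_or hD hz hi hjk' hb hc ha
    rcases this with h | h
    · exact absurd (by convert h using 1; abel) hn
    · convert h using 1; abel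
  have tog_j : ∀ {i' k' : Fin n} {a b c : ZMod 3}, i' ≠ k' → a ≠ 0 → c ≠ 0 → b ≠ 0 →
      p (z + e i' a + e j b + e k' c) → ¬ p (z + e i' a + e j (-b) + e k' c) := by
    intro i' k' a b c hik' ha hc hb hp hp2
    refine trip_not hD hz hj hik' ha hc hb (?_ : p (z + e i' a + e k' c + e j b)) ?_
    · convert hp using 1; abel
    · convert hp2 using 1; abel
  have hq2 : ¬ p (z + e i (-1) + e j (-1) + e k c) :=
    tog_j hik h1' hc h1 (tog_i hjk h1 hc h1 hqc)
  obtain ⟨d, hd⟩ := hl (z + e i 1 + e j 1 + e k c)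
  have hd0 : d ≠ 0 := by
    rintro rfl; rw [e_zero] at hd; exact hqc hd
  obtain ⟨d', hd'⟩ := hl (z + e i (-1) + e j (-1) + e k c)
  have hd0' : d' ≠ 0 := by
    rintro rfl; rw [e_zero] at hd'; exact hq2 hd'
  -- no edges between level three and level four
  have ne_k : ∀ {a b c d : ZMod 3}, a ≠ 0 → b ≠ 0 → c ≠ 0 → d ≠ 0 →
      p (z + e i a + e j b + e k c + e l d) → ¬ p (z + e i a + e j b + e l d) := by
    intro a b c d ha hb hc hd hp hp3
    have h5 : p (z + e i a + e j b + e l d + e k c) := by convert hp using 1; abel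
    have h6 := third hD hk hc hp3 h5
    refine hne a b (-c) d ha hb (z3_neg_ne c hc) hd ?_
    convert h6 using 1; abel
  have ne_j : ∀ {a b c d : ZMod 3}, a ≠ 0 → b ≠ 0 → c ≠ 0 → d ≠ 0 →
      p (z + e i a + e j b + e k c + e l d) → ¬ p (z + e i a + e k c + e l d) := by
    intro a b c d ha hb hc hd hp hp3
    have h5 : p (z + e i a + e k c + e l d + e j b) := by convert hp using 1; abel
    have h6 := third hD hj hb hp3 h5
    refine hne a (-b) c d ha (z3_neg_ne b hb) hc hd ?_
    convert h6 using 1; abel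
  have hA : ¬ p (z + e i 1 + e j 1 + e l d) := ne_k h1 h1 hc hd0 hd
  have hB : ¬ p (z + e i (-1) + e j (-1) + e l d') := ne_k h1' h1' hc hd0' hd'
  have hdd : d' = d := by
    rcases z3_cases d d' hd0 hd0' with h | h
    · exact h
    · exfalso
      have h7 : ¬ p (z + e i (-1) + e j (-1) + e l d) :=
        tog_j hil h1' hd0 h1 (tog_i hjl h1 hd0 h1 hA)
      rcases trip_or hD hz hl hij h1' h1' hd0 with h8 | h8
      · exact h7 h8
      · rw [← h] at h8; exact hB h8
  subst hdd
  have hC : ¬ p (z + e i 1 + e k c + e l d') := ne_j h1 h1 hc hd0 hd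
  have hE : ¬ p (z + e i (-1) + e k c + e l d') := ne_j h1' h1' hc hd0' hd'
  exact hE (tog_i hkl hc hd0 h1 hC)

lemma inj (hD : D1 p) {z : Fin n → ZMod 3} (hz : Fc p z) {i j k l m : Fin n}
    (hk : Met p k) (hij : i ≠ j) (hlm : l ≠ m)
    {a b c d c' d' : ZMod 3} (ha : a ≠ 0) (hb : b ≠ 0) (hc : c ≠ 0) (hd : d ≠ 0)
    (hc' : c' ≠ 0) (hd' : d' ≠ 0)
    (h1 : Fc p (z + e i a + e j b + e k c + e l d))
    (h2 : Fc p (z + e i a + e j b + e k c' + e m d')) : False := by
  have q1 : p (z + e i a + e j b + e k c) := by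
    have := h1 l (-d) (z3_neg_ne d hd)
    rwa [e_add, add_neg_cancel, e_zero] at this
  have q2 : p (z + e i a + e j b + e k c') := by
    have := h2 m (-d') (z3_neg_ne d' hd')
    rwa [e_add, add_neg_cancel, e_zero] at this
  have hcc : c' = c := by
    rcases z3_cases c c' hc hc' with h | h
    · exact h
    · subst h; exact absurd q2 (fun q2 => trip_not hD hz hk hij ha hb hc q1 q2)
  subst hcc
  have r1 : p (z + e i a + e j b + e k c' + e l (-d)) := by
    have := h1 l d hd
    rwa [e_add, z3_double] at this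
  have r2 : p (z + e i a + e j b + e k c' + e m (-d')) := by
    have := h2 m d' hd'
    rwa [e_add, z3_double] at this
  exact hlm (hD _ _ _ _ _ q1 (z3_neg_ne d hd) (z3_neg_ne d' hd') r1 r2).1

/-- no full center when seven directions are met -/
lemma main (hD : D1 p) {z : Fin n → ZMod 3} (hz : Fc p z) (f : Fin 7 → Fin n)
    (hf : Function.Injective f) (hM : ∀ i, Met p (f i)) : False := by
  set g : Fin 5 → Fin n := fun k => f (Fin.castLE (by norm_num) k) with hg
  have hgi : Function.Injective g := by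
    intro a b hab
    have := hf hab
    exact Fin.castLE_injective _ this
  set i := f 5 with hi
  set j := f 6 with hj
  have hij : i ≠ j := fun h => by have := hf h; revert this; decide
  have hig : ∀ k, i ≠ g k := by
    intro k h
    have := hf h
    have h2 := congrArg Fin.val this
    simp at h2
    omega
  have hjg : ∀ k, j ≠ g k := by
    intro k h
    have := hf h
    have h2 := congrArg Fin.val this
    simp at h2
    omega
  have hMg : ∀ k, Met p (g k) := fun k => hM _
  let R : Fin 5 → Fin 5 → ZMod 3 × ZMod 3 → Prop := fun k l γ =>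
    γ.1 ≠ 0 ∧ γ.2 ≠ 0 ∧ ∃ c d, c ≠ 0 ∧ d ≠ 0 ∧
      Fc p (z + e i γ.1 + e j γ.2 + e (g k) c + e (g l) d)
  have Rsymm : ∀ k l γ, R k l γ → R l k γ := by
    rintro k l γ ⟨ha, hb, c, d, hc, hd, hF⟩
    refine ⟨ha, hb, d, c, hd, hc, ?_⟩
    convert hF using 1; abel
  have Rinj : ∀ k l m γ, l ≠ m → R k l γ → R k m γ → False := by
    rintro k l m γ hlm ⟨ha, hb, c, d, hc, hd, hF⟩ ⟨_, _, c', d', hc', hd', hF'⟩
    exact inj hD hz (hMg k) hij (fun h => hlm (hgi h)) ha hb hc hd hc' hd' hF hF'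
  have Rex : ∀ k l, k ≠ l → ∃ γ, R k l γ := by
    intro k l hkl
    obtain ⟨a, b, c, d, ha, hb, hc, hd, hF⟩ := quad hD hz (hM 5) (hM 6) (hMg k) (hMg l)
      hij (hig k) (hig l) (hjg k) (hjg l) (fun h => hkl (hgi h))
    exact ⟨(a, b), ha, hb, c, d, hc, hd, hF⟩
  classical
  let P : Finset (Fin 5 × Fin 5) := Finset.univ.filter (fun q => q.1 < q.2)
  have hP : P.card = 10 := by decide
  let C : Finset (ZMod 3 × ZMod 3) := Finset.univ.filter (fun q => q.1 ≠ 0 ∧ q.2 ≠ 0)
  have hC : C.card = 4 := by decide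
  have hcol : ∀ q : Fin 5 × Fin 5, ∃ γ, q ∈ P → R q.1 q.2 γ := by
    intro q
    by_cases hq : q ∈ P
    · have hlt : q.1 < q.2 := (Finset.mem_filter.1 hq).2
      obtain ⟨γ, hγ⟩ := Rex q.1 q.2 (ne_of_lt hlt)
      exact ⟨γ, fun _ => hγ⟩
    · exact ⟨(0, 0), fun h => absurd h hq⟩
  choose col hcol using hcol
  have hmaps : ∀ q ∈ P, col q ∈ C := by
    intro q hq
    have := hcol q hq
    exact Finset.mem_filter.2 ⟨Finset.mem_univ _, this.1, this.2.1⟩
  obtain ⟨γ, -, hγ⟩ := Finset.exists_lt_card_fiber_of_mul_lt_card_of_maps_to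
    (n := 2) hmaps (by rw [hP, hC]; norm_num)
  obtain ⟨a, ha, b, hb, c, hc, hab, hac, hbc⟩ := Finset.two_lt_card.1 hγ
  have share : ∀ u v : Fin 5 × Fin 5, u ∈ P.filter (fun q => col q = γ) →
      v ∈ P.filter (fun q => col q = γ) → u ≠ v →
      u.1 ≠ v.1 ∧ u.1 ≠ v.2 ∧ u.2 ≠ v.1 ∧ u.2 ≠ v.2 := by
    intro u v hu hv huv
    obtain ⟨huP, huc⟩ := Finset.mem_filter.1 hu
    obtain ⟨hvP, hvc⟩ := Finset.mem_filter.1 hv
    have hul : u.1 < u.2 := (Finset.mem_filter.1 huP).2
    have hvl : v.1 < v.2 := (Finset.mem_filter.1 hvP).2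
    have Ru : R u.1 u.2 γ := huc ▸ hcol u huP
    have Rv : R v.1 v.2 γ := hvc ▸ hcol v hvP
    refine ⟨?_, ?_, ?_, ?_⟩
    · intro h
      have hne : u.2 ≠ v.2 := fun h2 => huv (Prod.ext h h2)
      rw [← h] at Rv
      exact Rinj _ _ _ _ hne Ru Rv
    · intro h
      have hne : u.2 ≠ v.1 := by
        intro h2; rw [h, h2] at hul; exact absurd hul (not_lt.2 hvl.le)
      have Rv' := Rsymm _ _ _ Rv
      rw [← h] at Rv'
      exact Rinj _ _ _ _ hne Ru Rv'
    · intro h
      have hne : u.1 ≠ v.2 := by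
        intro h2; rw [h, h2] at hul; exact absurd hul (not_lt.2 hvl.le)
      have Ru' := Rsymm _ _ _ Ru
      rw [h] at Ru'
      exact Rinj _ _ _ _ hne Ru' Rv
    · intro h
      have hne : u.1 ≠ v.1 := fun h2 => huv (Prod.ext h2 h)
      have Ru' := Rsymm _ _ _ Ru
      have Rv' := Rsymm _ _ _ Rv
      rw [h] at Ru'
      exact Rinj _ _ _ _ hne Ru' Rv'
  have s1 := share a b ha hb hab
  have s2 := share a c ha hc hac
  have s3 := share b c hb hc hbc
  have la : a.1 < a.2 := (Finset.mem_filter.1 (Finset.mem_filter.1 ha).1).2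
  have lb : b.1 < b.2 := (Finset.mem_filter.1 (Finset.mem_filter.1 hb).1).2
  have lc : c.1 < c.2 := (Finset.mem_filter.1 (Finset.mem_filter.1 hc).1).2
  have hnd : [a.1, a.2, b.1, b.2, c.1, c.2].Nodup := by
    simp only [List.nodup_cons, List.mem_cons, List.not_mem_nil, or_false, not_or,
      not_false_eq_true, List.nodup_nil, and_true]
    exact ⟨⟨ne_of_lt la, s1.1, s1.2.1, s2.1, s2.2.1⟩, ⟨s1.2.2.1, s1.2.2.2, s2.2.2.1, s2.2.2.2⟩,
      ⟨ne_of_lt lb, s3.1, s3.2.1⟩, ⟨s3.2.2.1, s3.2.2.2⟩, ne_of_lt lc⟩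
  have := hnd.length_le_card
  simp at this

end loc


section layers

/-- the full centers of a finite set -/
noncomputable def cen {n : ℕ} (U : Finset (Fin n → ZMod 3)) : Finset (Fin n → ZMod 3) := by
  classical exact Finset.univ.filter (fun z => Fc (fun x => x ∈ U) z)

lemma mem_cen {n : ℕ} {U : Finset (Fin n → ZMod 3)} {z : Fin n → ZMod 3} :
    z ∈ cen U ↔ ∀ j t, t ≠ 0 → z + e j t ∈ U := by
  classical
  unfold cen
  exact ⟨fun h => (Finset.mem_filter.1 h).2, fun h => Finset.mem_filter.2 ⟨Finset.mem_univ _, h⟩⟩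

/-- layer `t` of a finite set -/
noncomputable def lay {n : ℕ} (U : Finset (Fin (n + 1) → ZMod 3)) (t : ZMod 3) :
    Finset (Fin n → ZMod 3) := by
  classical exact Finset.univ.filter (fun y => (Fin.cons t y : Fin (n + 1) → ZMod 3) ∈ U)

lemma mem_lay {n : ℕ} {U : Finset (Fin (n + 1) → ZMod 3)} {t : ZMod 3} {y : Fin n → ZMod 3} :
    y ∈ lay U t ↔ (Fin.cons t y : Fin (n + 1) → ZMod 3) ∈ U := by
  classical
  simp [lay]

lemma cons_e0 {n : ℕ} (t s : ZMod 3) (y : Fin n → ZMod 3) :
    (Fin.cons t y : Fin (n + 1) → ZMod 3) + e 0 s = Fin.cons (t + s) y := by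
  funext a
  refine Fin.cases ?_ (fun b => ?_) a
  · simp [e]
  · simp [e]

lemma cons_es {n : ℕ} (t s : ZMod 3) (i : Fin n) (y : Fin n → ZMod 3) :
    (Fin.cons t y : Fin (n + 1) → ZMod 3) + e i.succ s = Fin.cons t (y + e i s) := by
  funext a
  refine Fin.cases ?_ (fun b => ?_) a
  · simp [e, Pi.single_apply, (Fin.succ_ne_zero i).symm]
  · simp [e, Pi.single_apply]

lemma card_lay {n : ℕ} (U : Finset (Fin (n + 1) → ZMod 3)) :
    U.card = ∑ t : ZMod 3, (lay U t).card := by
  classical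
  rw [Finset.card_eq_sum_card_fiberwise (f := fun x : Fin (n + 1) → ZMod 3 => x 0)
    (t := Finset.univ) (fun _ _ => Finset.mem_coe.2 (Finset.mem_univ _))]
  refine Finset.sum_congr rfl (fun t _ => ?_)
  refine Finset.card_bij (fun x _ => Fin.tail x) ?_ ?_ ?_
  · intro x hx
    obtain ⟨hxU, hx0⟩ := Finset.mem_filter.1 hx
    rw [mem_lay, ← hx0, Fin.cons_self_tail]
    exact hxU
  · intro x hx y hy hxy
    obtain ⟨hxU, hx0⟩ := Finset.mem_filter.1 hx
    obtain ⟨hyU, hy0⟩ := Finset.mem_filter.1 hy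
    rw [← Fin.cons_self_tail x, ← Fin.cons_self_tail y, hxy, hx0, hy0]
  · intro y hy
    refine ⟨Fin.cons t y, Finset.mem_filter.2 ⟨mem_lay.1 hy, by simp⟩, by simp⟩

/-- degree at most one for finsets -/
def D1F {n : ℕ} (U : Finset (Fin n → ZMod 3)) : Prop := D1 (fun x => x ∈ U)

lemma D1_lay {n : ℕ} {U : Finset (Fin (n + 1) → ZMod 3)} (hU : D1F U) (t : ZMod 3) :
    D1F (lay U t) := by
  intro x i j s r hx hs hr h1 h2
  have := hU (Fin.cons t x) i.succ j.succ s r (mem_lay.1 hx) hs hr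
    (by rw [cons_es]; exact mem_lay.1 h1) (by rw [cons_es]; exact mem_lay.1 h2)
  exact ⟨Fin.succ_injective _ this.1, this.2⟩

/-- a point of layer `t` with a neighbour in its layer has no neighbour in other layers -/
lemma no_cross {n : ℕ} {U : Finset (Fin (n + 1) → ZMod 3)} (hU : D1F U) {t t' : ZMod 3}
    (htt : t' ≠ t) {y : Fin n → ZMod 3} {i : Fin n} {s : ZMod 3} (hs : s ≠ 0)
    (h0 : y ∈ lay U t) (h1 : y + e i s ∈ lay U t) : y ∉ lay U t' := by
  intro h2
  have := hU (Fin.cons t y) 0 i.succ (t' - t) s (mem_lay.1 h0) (sub_ne_zero.2 htt) hs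
    (by rw [cons_e0, add_sub_cancel]; exact mem_lay.1 h2)
    (by rw [cons_es]; exact mem_lay.1 h1)
  exact (Fin.succ_ne_zero i) this.1.symm

/-- the points added to layer `t` -/
noncomputable def X {n : ℕ} (U : Finset (Fin (n + 1) → ZMod 3)) (t : ZMod 3) :
    Finset (Fin n → ZMod 3) := by
  classical exact Finset.univ.filter (fun y => y ∉ lay U t ∧ ∃ t', t' ≠ t ∧ y ∈ cen (lay U t'))

lemma mem_X {n : ℕ} {U : Finset (Fin (n + 1) → ZMod 3)} {t : ZMod 3} {y : Fin n → ZMod 3} :
    y ∈ X U t ↔ y ∉ lay U t ∧ ∃ t', t' ≠ t ∧ y ∈ cen (lay U t') := by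
  classical
  simp [X]

lemma shift_eq {n : ℕ} (x : Fin n → ZMod 3) (i : Fin n) (s : ZMod 3) :
    x + e i s + e i s = x + e i (-s) := by rw [e_add, z3_double]

lemma X_iso {n : ℕ} {U : Finset (Fin (n + 1) → ZMod 3)} (hU : D1F U) {t : ZMod 3}
    {x : Fin n → ZMod 3} (hx : x ∈ X U t) {i : Fin n} {s : ZMod 3} (hs : s ≠ 0) :
    x + e i s ∉ lay U t ∧ x + e i s ∉ X U t := by
  obtain ⟨hxU, t', htt, hc⟩ := mem_X.1 hx
  rw [mem_cen] at hc
  have y1 := hc i s hs
  have y2 := hc i (-s) (z3_neg_ne s hs)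
  have y2' : x + e i s + e i s ∈ lay U t' := by rw [shift_eq]; exact y2
  refine ⟨no_cross hU htt.symm hs y1 y2', ?_⟩
  intro hy
  obtain ⟨hyU, t'', htt2, hc2⟩ := mem_X.1 hy
  rw [mem_cen] at hc2
  by_cases h : t'' = t'
  · subst h
    have hxl : x ∈ lay U t'' := by
      have := hc2 i (-s) (z3_neg_ne s hs)
      rwa [e_add, add_neg_cancel, e_zero] at this
    have := D1_lay hU t'' x i i s (-s) hxl hs (z3_neg_ne s hs) y1 y2
    exact z3_ne_neg s hs this.2
  · have hz : x + e i (-s) ∈ lay U t'' := by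
      have := hc2 i s hs
      rwa [shift_eq] at this
    have hzy : x + e i (-s) + e i (-s) ∈ lay U t' := by
      rw [e_add, z3_neg2]; exact y1
    exact no_cross hU h (z3_neg_ne s hs) y2 hzy hz

/-- the enlarged layer -/
noncomputable def V {n : ℕ} (U : Finset (Fin (n + 1) → ZMod 3)) (t : ZMod 3) :
    Finset (Fin n → ZMod 3) := by
  classical exact lay U t ∪ X U t

lemma mem_V {n : ℕ} {U : Finset (Fin (n + 1) → ZMod 3)} {t : ZMod 3} {y : Fin n → ZMod 3} :
    y ∈ V U t ↔ y ∈ lay U t ∨ y ∈ X U t := by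
  classical
  simp [V]

lemma card_V {n : ℕ} (U : Finset (Fin (n + 1) → ZMod 3)) (t : ZMod 3) :
    (V U t).card = (lay U t).card + (X U t).card := by
  classical
  unfold V
  rw [Finset.card_union_of_disjoint]
  rw [Finset.disjoint_left]
  intro y hy hyX
  exact (mem_X.1 hyX).1 hy

lemma V_iso {n : ℕ} {U : Finset (Fin (n + 1) → ZMod 3)} (hU : D1F U) {t : ZMod 3}
    {x : Fin n → ZMod 3} (hx : x ∈ V U t) {i : Fin n} {s : ZMod 3} (hs : s ≠ 0)
    (hy : x + e i s ∈ V U t) : x ∈ lay U t ∧ x + e i s ∈ lay U t := by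
  rcases mem_V.1 hx with h | h
  · rcases mem_V.1 hy with h' | h'
    · exact ⟨h, h'⟩
    · exfalso
      have := (X_iso hU h' (i := i) (z3_neg_ne s hs)).1
      rw [e_add, add_neg_cancel, e_zero] at this
      exact this h
  · exfalso
    rcases mem_V.1 hy with h' | h'
    · exact (X_iso hU h hs).1 h'
    · exact (X_iso hU h hs).2 h'

lemma D1_V {n : ℕ} {U : Finset (Fin (n + 1) → ZMod 3)} (hU : D1F U) (t : ZMod 3) :
    D1F (V U t) := by
  intro x i j s r hx hs hr h1 h2
  have a1 := V_iso hU hx hs h1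
  have a2 := V_iso hU hx hr h2
  exact D1_lay hU t x i j s r a1.1 hs hr a1.2 a2.2

lemma cen_V {n : ℕ} {U : Finset (Fin (n + 1) → ZMod 3)} (hU : D1F U) (t : ZMod 3) :
    cen (V U t) ⊆ cen (lay U t) := by
  intro c hc
  rw [mem_cen] at hc ⊢
  intro j s hs
  have h1 := hc j s hs
  have h2 : c + e j s + e j s ∈ V U t := by rw [shift_eq]; exact hc j (-s) (z3_neg_ne s hs)
  exact (V_iso hU h1 hs h2).1

lemma uniq {n : ℕ} {U : Finset (Fin (n + 2) → ZMod 3)} (hU : D1F U) {a b : ZMod 3}
    {y : Fin (n + 1) → ZMod 3} (ha : y ∈ cen (lay U a)) (hb : y ∈ cen (lay U b)) : a = b := by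
  by_contra hab
  rw [mem_cen] at ha hb
  have h1 := ha 0 1 z3_one
  have h2 : y + e 0 1 + e 0 1 ∈ lay U a := by
    rw [shift_eq]; exact ha 0 (-1) (z3_neg_ne 1 z3_one)
  exact no_cross hU (fun h => hab h.symm) z3_one h1 h2 (hb 0 1 z3_one)

lemma sum_cen {n : ℕ} {U : Finset (Fin (n + 2) → ZMod 3)} (hU : D1F U) :
    ∑ t : ZMod 3, (cen (lay U t)).card ≤ (cen U).card + ∑ t : ZMod 3, (X U t).card := by
  classical
  rw [card_lay (cen U), ← Finset.sum_add_distrib]
  have key : ∀ (F : ZMod 3 → Finset (Fin (n + 1) → ZMod 3)),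
      ∑ t : ZMod 3, (F t).card = ∑ y : Fin (n + 1) → ZMod 3, ∑ t : ZMod 3,
        (if y ∈ F t then 1 else 0) := by
    intro F
    rw [Finset.sum_comm]
    refine Finset.sum_congr rfl (fun t _ => ?_)
    simp
  rw [Finset.sum_add_distrib, key (fun t => cen (lay U t)), key (fun t => lay (cen U) t),
    key (fun t => X U t), ← Finset.sum_add_distrib]
  refine Finset.sum_le_sum (fun y _ => ?_)
  by_cases hex : ∃ t, y ∈ cen (lay U t)
  · obtain ⟨t, ht⟩ := hex
    have hl : ∑ t' : ZMod 3, (if y ∈ cen (lay U t') then 1 else 0) = 1 := by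
      rw [Finset.sum_eq_single t]
      · simp [ht]
      · intro b _ hb
        rw [if_neg]
        exact fun h => hb (uniq hU h ht)
      · intro h; exact absurd (Finset.mem_univ _) h
    rw [hl]
    by_cases hfull : y ∈ lay (cen U) t
    · have : (1 : ℕ) ≤ ∑ t' : ZMod 3, (if y ∈ lay (cen U) t' then 1 else 0) := by
        have := Finset.single_le_sum (f := fun t' : ZMod 3 => (if y ∈ lay (cen U) t' then 1 else 0))
          (fun _ _ => Nat.zero_le _) (Finset.mem_univ t)
        simpa [hfull] using this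
      omega
    · rw [mem_lay, mem_cen] at hfull
      push Not at hfull
      obtain ⟨j, s, hs, hj⟩ := hfull
      revert hj
      refine Fin.cases ?_ (fun i => ?_) j
      · intro hj
        rw [cons_e0] at hj
        have hX : y ∈ X U (t + s) := by
          rw [mem_X, mem_lay]
          refine ⟨hj, t, ?_, ht⟩
          intro h
          exact hs (by simpa using h.symm)
        have : (1 : ℕ) ≤ ∑ t' : ZMod 3, (if y ∈ X U t' then 1 else 0) := by
          have := Finset.single_le_sum (f := fun t' : ZMod 3 => (if y ∈ X U t' then 1 else 0))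
            (fun _ _ => Nat.zero_le _) (Finset.mem_univ (t + s))
          simpa [hX] using this
        omega
      · intro hj
        rw [cons_es] at hj
        exact absurd (mem_lay.1 (mem_cen.1 ht i s hs)) hj
  · have : ∑ t' : ZMod 3, (if y ∈ cen (lay U t') then 1 else 0) = 0 := by
      refine Finset.sum_eq_zero (fun t' _ => ?_)
      rw [if_neg]
      exact fun h => hex ⟨t', h⟩
    rw [this]
    exact Nat.zero_le _

lemma base {U : Finset (Fin 1 → ZMod 3)} (hU : D1F U) : U.card ≤ 3 ^ 0 + (cen U).card := by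
  classical
  rcases Nat.lt_or_ge U.card 2 with h | h
  · simp; omega
  · obtain ⟨x, hx, y, hy, hxy⟩ := Finset.one_lt_card.1 h
    obtain ⟨s, hs, hys⟩ : ∃ s : ZMod 3, s ≠ 0 ∧ y = x + e 0 s := by
      refine ⟨y 0 - x 0, ?_, ?_⟩
      · intro h0
        apply hxy
        funext a
        rw [Subsingleton.elim a 0]
        exact (sub_eq_zero.1 h0).symm
      · funext a
        rw [Subsingleton.elim a 0]
        simp [e]
    subst hys
    have hall : ∀ w : Fin 1 → ZMod 3, w = x ∨ w = x + e 0 s ∨ w = x + e 0 (-s) := by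
      intro w
      have hw : w = x + e 0 (w 0 - x 0) := by
        funext a
        rw [Subsingleton.elim a 0]
        simp [e]
      rcases z3_cases3 s (w 0 - x 0) hs with h | h | h
      · left; rw [hw, h, e_zero]
      · right; left; rw [hw, h]
      · right; right; rw [hw, h]
    have hz : x + e 0 (-s) ∉ U := by
      intro hz
      exact z3_ne_neg s hs (hU x 0 0 s (-s) hx hs (z3_neg_ne s hs) hy hz).2
    have hsub : U ⊆ {x, x + e 0 s} := by
      intro w hw
      rcases hall w with h | h | h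
      · simp [h]
      · simp [h]
      · exact absurd (h ▸ hw) hz
    have h2 : U.card ≤ 2 := (Finset.card_le_card hsub).trans Finset.card_le_two
    have hcen : x + e 0 (-s) ∈ cen U := by
      rw [mem_cen]
      intro j t ht
      rw [Subsingleton.elim j 0, e_add]
      rcases z3_cases s t hs ht with h | h
      · subst h; rw [neg_add_cancel, e_zero]; exact hx
      · subst h; rw [z3_neg2]; exact hy
    have : 0 < (cen U).card := Finset.card_pos.2 ⟨_, hcen⟩
    simp; omega

lemma bound : ∀ (n : ℕ) (U : Finset (Fin (n + 1) → ZMod 3)), D1F U →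
    U.card ≤ 3 ^ n + (cen U).card
  | 0, U, hU => base hU
  | n + 1, U, hU => by
    have h1 := card_lay U
    have h2 := sum_cen hU
    have h3 : ∀ t : ZMod 3, (lay U t).card + (X U t).card ≤ 3 ^ n + (cen (lay U t)).card := by
      intro t
      rw [← card_V]
      exact (bound n (V U t) (D1_V hU t)).trans
        (Nat.add_le_add_left (Finset.card_le_card (cen_V hU t)) _)
    have h4 := Finset.sum_le_sum (fun t (_ : t ∈ (Finset.univ : Finset (ZMod 3))) => h3 t)
    rw [Finset.sum_add_distrib, Finset.sum_add_distrib, ← h1] at h4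
    have h5 : ∑ _t : ZMod 3, 3 ^ n = 3 ^ (n + 1) := by
      rw [Finset.sum_const, Finset.card_univ, ZMod.card]; simp [pow_succ, mul_comm]
    rw [h5] at h4
    omega

end layers

section final
variable {n : ℕ}

lemma rep (v w : Fin n → ZMod 3) : w = v + ∑ i ∈ Finset.univ.filter (fun i => v i ≠ w i),
    e i (w i - v i) := by
  classical
  funext a
  rw [Pi.add_apply, Finset.sum_apply]
  have : ∀ i ∈ Finset.univ.filter (fun i => v i ≠ w i), (e i (w i - v i) : Fin n → ZMod 3) a
      = if a = i then w a - v a else 0 := by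
    intro i _
    simp only [e]
    rw [Pi.single_apply]
    by_cases h : a = i
    · subst h; simp
    · simp [h]
  rw [Finset.sum_congr rfl this, Finset.sum_ite_eq]
  by_cases h : v a = w a
  · simp [h]
  · simp [h]

lemma ham_card (v w : Fin n → ZMod 3) :
    hammingDist v w = (Finset.univ.filter (fun i => v i ≠ w i)).card := rfl

lemma ham_e (x : Fin n → ZMod 3) (i : Fin n) {s : ZMod 3} (hs : s ≠ 0) :
    hammingDist x (x + e i s) = 1 := by
  classical
  rw [ham_card, Finset.card_eq_one]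
  refine ⟨i, ?_⟩
  ext a
  simp only [Finset.mem_filter, Finset.mem_univ, true_and, Finset.mem_singleton, Pi.add_apply,
    Pi.single_apply]
  by_cases h : a = i
  · simp [h, hs]
  · simp [h]

lemma ham_one {v w : Fin n → ZMod 3} (h : hammingDist v w = 1) :
    ∃ i s, s ≠ 0 ∧ w = v + e i s := by
  classical
  rw [ham_card, Finset.card_eq_one] at h
  obtain ⟨i, hi⟩ := h
  refine ⟨i, w i - v i, ?_, ?_⟩
  · have : i ∈ Finset.univ.filter (fun i => v i ≠ w i) := by rw [hi]; simp
    have h2 := (Finset.mem_filter.1 this).2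
    exact fun h3 => h2 (sub_eq_zero.1 h3).symm
  · have := rep v w
    rw [hi, Finset.sum_singleton] at this
    exact this

lemma D1_of {U : Finset (Fin n → ZMod 3)}
    (hU : ∀ u ∈ U, (U.filter (fun v => hammingDist u v = 1)).card ≤ 1) : D1F U := by
  classical
  intro x i j s t hx hs ht h1 h2
  have h := Finset.card_le_one.1 (hU x hx) _ (Finset.mem_filter.2 ⟨h1, ham_e x i hs⟩) _
    (Finset.mem_filter.2 ⟨h2, ham_e x j ht⟩)
  have h3 : (e i s : Fin n → ZMod 3) = e j t := add_left_cancel h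
  by_cases hij : i = j
  · subst hij
    exact ⟨rfl, Pi.single_injective i h3⟩
  · exfalso
    have h4 := congrFun h3 i
    simp [e, Pi.single_apply, hij] at h4
    exact hs h4

lemma cen_iff {U : Finset (Fin n → ZMod 3)} {z : Fin n → ZMod 3} :
    z ∈ cen U ↔ ∀ w, hammingDist z w = 1 → w ∈ U := by
  rw [mem_cen]
  constructor
  · intro h w hw
    obtain ⟨i, s, hs, rfl⟩ := ham_one hw
    exact h i s hs
  · intro h i s hs
    exact h _ (ham_e z i hs)

lemma cen_dist {U : Finset (Fin n → ZMod 3)} (hU : D1F U) {v w : Fin n → ZMod 3}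
    (hv : v ∈ cen U) (hw : w ∈ cen U) (hvw : v ≠ w) : 4 ≤ hammingDist v w := by
  classical
  by_contra hlt
  rw [mem_cen] at hv hw
  have hr := rep v w
  rw [ham_card] at hlt
  set D := Finset.univ.filter (fun i => v i ≠ w i) with hDdef
  have hne : ∀ i ∈ D, w i - v i ≠ 0 := by
    intro i hi h
    exact (Finset.mem_filter.1 hi).2 (sub_eq_zero.1 h).symm
  have hcases : D.card = 0 ∨ D.card = 1 ∨ D.card = 2 ∨ D.card = 3 := by omega
  rcases hcases with h | h | h | h
  · rw [Finset.card_eq_zero] at h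
    rw [h, Finset.sum_empty, add_zero] at hr
    exact hvw hr.symm
  · obtain ⟨i, hi⟩ := Finset.card_eq_one.1 h
    have hs := hne i (by rw [hi]; simp)
    rw [hi, Finset.sum_singleton] at hr
    set s := w i - v i with hsdef
    have hwU : w ∈ U := by rw [hr]; exact hv i s hs
    have h1 := hw i s hs
    have h2 := hw i (-s) (z3_neg_ne s hs)
    exact z3_ne_neg s hs (hU w i i s (-s) hwU hs (z3_neg_ne s hs) h1 h2).2
  · obtain ⟨i, j, hij, hi⟩ := Finset.card_eq_two.1 h
    have hs := hne i (by rw [hi]; simp)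
    have ht := hne j (by rw [hi]; simp)
    rw [hi, Finset.sum_pair hij, ← add_assoc] at hr
    set s := w i - v i with hsdef
    set t := w j - v j with htdef
    have hx := hv i s hs
    have h1 : v + e i s + e i s ∈ U := by rw [shift_eq]; exact hv i (-s) (z3_neg_ne s hs)
    have h2 : v + e i s + e j (-t) ∈ U := by
      have := hw j t ht
      rw [hr, shift_eq] at this
      exact this
    exact hij (hU _ i j s (-t) hx hs (z3_neg_ne t ht) h1 h2).1
  · obtain ⟨i, j, k, hij, hik, hjk, hi⟩ := Finset.card_eq_three.1 h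
    have hs := hne i (by rw [hi]; simp)
    have ht := hne j (by rw [hi]; simp)
    have hr' := hne k (by rw [hi]; simp)
    have hsum : ∑ i ∈ D, (e i (w i - v i) : Fin n → ZMod 3)
        = e i (w i - v i) + (e j (w j - v j) + e k (w k - v k)) := by
      rw [hi, Finset.sum_insert (by simp [hij, hik]), Finset.sum_pair hjk]
    rw [hsum, ← add_assoc, ← add_assoc] at hr
    set s := w i - v i with hsdef
    set t := w j - v j with htdef
    set r := w k - v k with hrdef
    have hx := hv i s hs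
    have h1 : v + e i s + e i s ∈ U := by rw [shift_eq]; exact hv i (-s) (z3_neg_ne s hs)
    have h2 : v + e i s + e j t ∈ U := by
      have := hw k (-r) (z3_neg_ne r hr')
      rw [hr, e_add, add_neg_cancel, e_zero] at this
      exact this
    exact hij (hU _ i j s t hx hs ht h1 h2).1

lemma update_eq (x : Fin n → ZMod 3) (i : Fin n) (a : ZMod 3) :
    Function.update x i a = x + e i (a - x i) := by
  classical
  funext b
  by_cases h : b = i
  · subst h; simp [e]
  · simp [e, Function.update_of_ne h, Pi.single_apply, h]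

lemma met_of {U : Finset (Fin n → ZMod 3)} {i : Fin n}
    (h : ∀ x, ∃ a, Function.update x i a ∈ U) : Met (fun x => x ∈ U) i := by
  intro x
  obtain ⟨a, ha⟩ := h x
  rw [update_eq] at ha
  exact ⟨_, ha⟩

/-- a set meeting all lines of one direction has at least `3 ^ (n - 1)` points, and more if it
contains two points of a line -/
lemma lower {m : ℕ} {U : Finset (Fin (m + 1) → ZMod 3)} (i : Fin (m + 1))
    (h : ∀ x, ∃ a, Function.update x i a ∈ U) :
    3 ^ m ≤ U.card ∧ (U.card ≤ 3 ^ m → ∀ x s, s ≠ 0 → x ∈ U → x + e i s ∉ U) := by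
  classical
  -- projection forgetting coordinate i
  let f : (Fin (m + 1) → ZMod 3) → (Fin m → ZMod 3) := fun x => i.removeNth x
  have hf : ∀ x a, f (Function.update x i a) = f x := by
    intro x a
    funext b
    simp [f, Fin.removeNth]
  have himg : U.image f = Finset.univ := by
    ext y
    simp only [Finset.mem_image, Finset.mem_univ, iff_true]
    obtain ⟨a, ha⟩ := h (i.insertNth 0 y)
    refine ⟨_, ha, ?_⟩
    rw [hf]
    simp [f]
  have hc : Fintype.card (Fin m → ZMod 3) = 3 ^ m := by simp [ZMod.card]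
  have h1 : (U.image f).card = 3 ^ m := by rw [himg, Finset.card_univ, hc]
  refine ⟨h1 ▸ Finset.card_image_le, ?_⟩
  intro hle x s hs hx hxs
  have hcard : (U.image f).card = U.card :=
    le_antisymm Finset.card_image_le (by rw [h1]; exact hle)
  have hinj := Finset.card_image_iff.1 hcard
  have h2 : f (x + e i s) = f x := by
    have : x + e i s = Function.update x i (x i + s) := by
      rw [update_eq]; congr 2; ring
    rw [this, hf]
  have h3 := hinj (Finset.mem_coe.2 hxs) (Finset.mem_coe.2 hx) h2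
  have h4 := congrFun h3 i
  simp [e] at h4
  exact hs h4

/-- Main theorem. -/
theorem result (n : ℕ) (hn : 1 ≤ n) (U : Finset (Fin n → ZMod 3))
    (hU : ∀ u ∈ U, (U.filter (fun v => hammingDist u v = 1)).card ≤ 1) :
    (∃ T : Finset (Fin n → ZMod 3),
      (∀ v, v ∈ T ↔ ∀ w, hammingDist v w = 1 → w ∈ U) ∧
      (∀ v ∈ T, ∀ w ∈ T, v ≠ w → 4 ≤ hammingDist v w) ∧
      U.card ≤ 3 ^ (n - 1) + T.card) ∧
    (3 ^ (n - 1) < U.card → ∃ D : Finset (Fin n), D.card ≤ 6 ∧
      ∀ i, i ∉ D → ∃ x, ∀ a, Function.update x i a ∉ U) ∧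
    (7 ≤ n → (∀ x i, ∃ a, Function.update x i a ∈ U) →
      (∀ u ∈ U, ∀ v ∈ U, hammingDist u v ≠ 1) ∧ U.card = 3 ^ (n - 1)) := by
  classical
  have hD : D1F U := D1_of hU
  obtain ⟨m, rfl⟩ : ∃ m, n = m + 1 := ⟨n - 1, by omega⟩
  simp only [Nat.add_sub_cancel]
  have hb := bound m U hD
  have key : 3 ^ m < U.card → ∃ D : Finset (Fin (m + 1)), D.card ≤ 6 ∧
      ∀ i, i ∉ D → ∃ x, ∀ a, Function.update x i a ∉ U := by
    intro hlt
    refine ⟨Finset.univ.filter (fun i => ∀ x, ∃ a, Function.update x i a ∈ U), ?_, ?_⟩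
    · by_contra hcon
      rw [not_le] at hcon
      have hpos : 0 < (cen U).card := by omega
      obtain ⟨z, hz⟩ := Finset.card_pos.1 hpos
      set D := Finset.univ.filter (fun i : Fin (m + 1) => ∀ x, ∃ a, Function.update x i a ∈ U)
        with hDdef
      obtain ⟨g, hg⟩ : ∃ g : Fin 7 → Fin (m + 1), Function.Injective g ∧ ∀ k, g k ∈ D := by
        have h7 : 7 ≤ D.card := hcon
        let φ := D.equivFin.symm
        refine ⟨fun k => (φ (Fin.castLE h7 k) : Fin (m + 1)), ?_, ?_⟩
        · intro a b hab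
          have h8 : φ (Fin.castLE h7 a) = φ (Fin.castLE h7 b) := Subtype.ext hab
          exact Fin.castLE_injective h7 (φ.injective h8)
        · intro k
          exact (φ (Fin.castLE h7 k)).2
      exact main (p := fun x => x ∈ U) hD (z := z) (fun j t ht => mem_cen.1 hz j t ht) g hg.1
        (fun k => met_of (Finset.mem_filter.1 (hg.2 k)).2)
    · intro i hi
      rw [Finset.mem_filter, not_and] at hi
      have := hi (Finset.mem_univ i)
      push Not at this
      exact this
  refine ⟨⟨cen U, fun v => cen_iff, fun v hv w hw hvw => cen_dist hD hv hw hvw, hb⟩, key, ?_⟩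
  intro h7 hmet
  have hle : U.card ≤ 3 ^ m := by
    by_contra hcon
    obtain ⟨D, hD6, hDm⟩ := key (not_le.1 hcon)
    have hall : D = Finset.univ := by
      ext i
      simp only [Finset.mem_univ, iff_true]
      by_contra hi
      obtain ⟨x, hx⟩ := hDm i hi
      obtain ⟨a, ha⟩ := hmet x i
      exact hx a ha
    rw [hall, Finset.card_univ, Fintype.card_fin] at hD6
    omega
  have hge := (lower (U := U) 0 (fun x => hmet x 0)).1
  refine ⟨?_, le_antisymm hle hge⟩
  intro u hu v hv huv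
  obtain ⟨i, s, hs, rfl⟩ := ham_one huv
  exact (lower (U := U) i (fun x => hmet x i)).2 hle u s hs hu hv

end final

end Pool.Agent.Results.MP_669823_co.FullCenters
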