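import Mathlib

open Finset

/-!
# Induced degree-1 subsets of `H(n,3)` and lines they miss

`U ⊆ Z_3^n` is an induced degree-1 subset. If `U` meets every line in each of seven coordinate
directions then `|U| = 3^(n-1)`; more generally `|U| ≤ 3^(n-1) + 729 z` where `z` is the number of
lines in these seven directions which miss `U`.

Idea. Inside a coset of the span of the seven directions in which no line is missed, the third
point of a line with two points of `U` is a *full centre*: all its neighbours are in `U`. Around a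
full centre the words of weight two are not in `U`, those of weight three are governed by a sign
`ε` on triples, every four directions carry a further full centre, and two full centres at
distance two are impossible. The last point says that for all `l ≠ m` the edge colouring
`ab ↦ ε_{abl} ε_{abm}` of the other five directions has no monochromatic triangle, so it is the
pentagon colouring and has an odd number of negative edges; multiplying over the three pairs
inside `{0, 1, 2}` gives a parity contradiction.
-/

namespace Pool.Agent.Results.MP_669823_co.MissedLines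

variable {n : ℕ}

/-- shorthand used in the proofs only -/
abbrev e (i : Fin n) (c : ZMod 3) : Fin n → ZMod 3 := Pi.single i c

theorem hd_single (x : Fin n → ZMod 3) (i : Fin n) {c : ZMod 3} (hc : c ≠ 0) :
    hammingDist x (x + e i c) = 1 := by
  unfold hammingDist
  rw [Finset.card_eq_one]
  refine ⟨i, ?_⟩
  ext j
  simp only [mem_filter, mem_univ, true_and, mem_singleton, Pi.add_apply, ne_eq]
  constructor
  · intro h
    by_contra hji
    exact h (by simp [e, Pi.single_eq_of_ne hji])
  · rintro rfl
    simp [e, hc]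

theorem z3_cases (c : ZMod 3) {a : ZMod 3} (ha : a ≠ 0) : c = 0 ∨ c = a ∨ c = -a := by
  revert c a; decide

theorem z3_two (a : ZMod 3) : a + a = -a := by revert a; decide

theorem z3_negtwo (a : ZMod 3) : -a + -a = a := by revert a; decide

theorem e_add (i : Fin n) (a b : ZMod 3) : e i a + e i b = e i (a + b) := by
  simp [e, Pi.single_add]

theorem e_zero (i : Fin n) : e i (0 : ZMod 3) = 0 := by simp [e]

theorem e_ne (i j : Fin n) {a b : ZMod 3} (ha : a ≠ 0) (h : i ≠ j ∨ a ≠ b) :
    (e i a : Fin n → ZMod 3) ≠ e j b := by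
  intro heq
  rcases eq_or_ne i j with rfl | hij
  · have := congrFun heq i
    simp [e] at this
    rcases h with h | h
    · exact h rfl
    · exact h this
  · have := congrFun heq i
    simp [e, Pi.single_eq_of_ne hij] at this
    exact ha this

section
variable (U : Finset (Fin n → ZMod 3))
  (hdeg : ∀ u ∈ U, (U.filter fun v => hammingDist u v = 1).card ≤ 1)
include hdeg

theorem deg2 {x : Fin n → ZMod 3} {i j : Fin n} {a b : ZMod 3} (hx : x ∈ U)
    (h1 : x + e i a ∈ U) (h2 : x + e j b ∈ U) (ha : a ≠ 0) (hb : b ≠ 0)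
    (hne : i ≠ j ∨ a ≠ b) : False := by
  have hc := hdeg x hx
  rw [Finset.card_le_one] at hc
  have h := hc (x + e i a) (by simp [h1, hd_single x i ha]) (x + e j b)
    (by simp [h2, hd_single x j hb])
  exact e_ne i j ha hne (add_left_cancel h)

end

/-- local data: `q0` base point of a coset of `span K` all of whose `K`-lines meet `U`. -/
structure Good (U : Finset (Fin n → ZMod 3)) (K : Finset (Fin n)) (q0 : Fin n → ZMod 3) : Prop where
  deg : ∀ u ∈ U, (U.filter fun v => hammingDist u v = 1).card ≤ 1
  line : ∀ x : Fin n → ZMod 3, (∀ i, i ∉ K → x i = q0 i) → ∀ i ∈ K, ∃ c, x + e i c ∈ U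

def Cos (K : Finset (Fin n)) (q0 x : Fin n → ZMod 3) : Prop := ∀ i, i ∉ K → x i = q0 i

def Full (U : Finset (Fin n → ZMod 3)) (K : Finset (Fin n)) (q : Fin n → ZMod 3) : Prop :=
  ∀ j ∈ K, ∀ b : ZMod 3, b ≠ 0 → q + e j b ∈ U

section
variable {U : Finset (Fin n → ZMod 3)} {K : Finset (Fin n)} {q0 : Fin n → ZMod 3}

theorem Cos.add {x : Fin n → ZMod 3} (hx : Cos K q0 x) {i : Fin n} (hi : i ∈ K) (c : ZMod 3) :
    Cos K q0 (x + e i c) := by
  intro j hj
  have : j ≠ i := fun h => hj (h ▸ hi)
  simp [e, Pi.single_eq_of_ne this, hx j hj]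

theorem DL (hG : Good U K q0) {i : Fin n} (hi : i ∈ K) {y : Fin n → ZMod 3} (hy : Cos K q0 y)
    {c : ZMod 3} (hc : c ≠ 0) (h0 : y ∈ U) (h1 : y + e i c ∈ U) : Full U K (y + e i (-c)) := by
  intro j hj b hb
  rcases eq_or_ne j i with rfl | hji
  · rcases z3_cases b hc with h | h | h
    · exact absurd h hb
    · subst h
      rw [add_assoc, e_add]; simpa [e_zero] using h0
    · subst h
      rw [add_assoc, e_add, z3_negtwo]; exact h1
  · obtain ⟨c', hc'⟩ := hG.line (y + e i (-c) + e j b) ((hy.add hi _).add hj _) i hi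
    rcases z3_cases c' hc with h | h | h
    · subst h; simpa [e_zero] using hc'
    · subst h
      exfalso
      have : y + e i (-c') + e j b + e i c' = y + e j b := by
        rw [add_right_comm, add_assoc y, e_add]; simp [e_zero]
      rw [this] at hc'
      exact deg2 U hG.deg h0 h1 hc' hc hb (Or.inl hji.symm)
    · subst h
      exfalso
      have h3 : y + e i (-c) + e j b + e i (-c) = (y + e i c) + e j b := by
        rw [add_right_comm, add_assoc y, e_add, z3_negtwo]
      rw [h3] at hc'
      have h4 : (y + e i c) + e i (-c) ∈ U := by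
        rw [add_assoc, e_add]; simpa [e_zero] using h0
      exact deg2 U hG.deg h1 h4 hc' (by simpa using hc) hb (Or.inl hji.symm)

theorem dist2 (hG : Good U K q0) {i j : Fin n} (hi : i ∈ K) (hj : j ∈ K) (hij : i ≠ j)
    {q : Fin n → ZMod 3} {a b : ZMod 3} (ha : a ≠ 0) (hb : b ≠ 0)
    (h1 : Full U K q) (h2 : Full U K (q + e i a + e j b)) : False := by
  have hu : q + e i a ∈ U := h1 i hi a ha
  have hu1 : q + e i a + e i a ∈ U := by
    rw [add_assoc, e_add, z3_two]; exact h1 i hi _ (by simpa using ha)
  have hu2 : q + e i a + e j (-b) ∈ U := by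
    have := h2 j hj b hb
    rwa [add_assoc (q + e i a), e_add, z3_two] at this
  exact deg2 U hG.deg hu hu1 hu2 ha (by simpa using hb) (Or.inl hij)

theorem weight2 (hG : Good U K q0) {i j : Fin n} (hi : i ∈ K) (hij : i ≠ j)
    {q : Fin n → ZMod 3} {a b : ZMod 3} (ha : a ≠ 0) (hb : b ≠ 0)
    (h1 : Full U K q) : q + e i a + e j b ∉ U := by
  intro h
  have hu : q + e i a ∈ U := h1 i hi a ha
  have hu1 : q + e i a + e i a ∈ U := by
    rw [add_assoc, e_add, z3_two]; exact h1 i hi _ (by simpa using ha)
  exact deg2 U hG.deg hu hu1 h ha hb (Or.inl hij)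

/-- flipping the last sign of a weight three vector around a full centre flips membership -/
theorem flip3 (hG : Good U K q0) {i j k : Fin n} (hi : i ∈ K) (hj : j ∈ K) (hk : k ∈ K)
    (hij : i ≠ j) {q : Fin n → ZMod 3} (hq : Cos K q0 q) {a b c : ZMod 3} (ha : a ≠ 0) (hb : b ≠ 0)
    (hc : c ≠ 0) (h1 : Full U K q) :
    q + e i a + e j b + e k c ∈ U ↔ ¬ (q + e i a + e j b + e k (-c) ∈ U) := by
  constructor
  · intro h h'
    have h'' : (q + e i a + e j b + e k c) + e k c ∈ U := by
      rw [add_assoc (q + e i a + e j b), e_add, z3_two]; exact h'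
    have hF := DL hG hk (((hq.add hi a).add hj b).add hk c) hc h h''
    rw [add_assoc (q + e i a + e j b), e_add] at hF
    simp only [add_neg_cancel, e_zero, add_zero] at hF
    exact dist2 hG hi hj hij ha hb h1 hF
  · intro h
    obtain ⟨c', hc'⟩ := hG.line (q + e i a + e j b) ((hq.add hi a).add hj b) k hk
    rcases z3_cases c' hc with h' | h' | h'
    · subst h'
      exfalso
      apply weight2 hG hi hij ha hb h1 (q := q)
      simpa [e_zero] using hc'
    · subst h'; exact hc'
    · subst h'; exact absurd hc' h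

theorem full4 (hG : Good U K q0) {i j k l : Fin n} (hi : i ∈ K) (hj : j ∈ K) (hk : k ∈ K)
    (hl : l ∈ K) (hij : i ≠ j) (hik : i ≠ k) (hil : i ≠ l) (hjk : j ≠ k) (hjl : j ≠ l)
    (hkl : k ≠ l) {q : Fin n → ZMod 3} (hq : Cos K q0 q) {a b c d : ZMod 3}
    (ha : a ≠ 0) (hb : b ≠ 0) (hc : c ≠ 0) (hd : d ≠ 0) (h1 : Full U K q)
    (habc : q + e i a + e j b + e k c ∈ U) (habd : q + e i a + e j b + e l d ∈ U)
    (hacd : q + e i a + e k c + e l d ∈ U) (hbcd : q + e j b + e k c + e l d ∈ U) :
    Full U K (q + e i a + e j b + e k c + e l d) := by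
  have ha' : -a ≠ 0 := by simpa using ha
  have hb' : -b ≠ 0 := by simpa using hb
  -- u = (-a,-b,c,d)
  have hu : q + e i (-a) + e j (-b) + e k c + e l d ∉ U := by
    intro hu
    -- u \ k = (-a,-b,d) ∈ U
    have huk : q + e i (-a) + e j (-b) + e l d ∈ U := by
      have s1 : ¬ (q + e j b + e l d + e i (-a) ∈ U) := by
        rw [← flip3 hG hj hl hi hjl hq hb hd ha h1]
        have : q + e j b + e l d + e i a = q + e i a + e j b + e l d := by abel
        rw [this]; exact habd
      have s2 : ¬ (q + e l d + e i (-a) + e j b ∈ U) := by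
        have : q + e l d + e i (-a) + e j b = q + e j b + e l d + e i (-a) := by abel
        rw [this]; exact s1
      have s3 := (flip3 hG hl hi hj hil.symm hq hd ha' hb' h1)
      rw [neg_neg] at s3
      have s4 := s3.2 s2
      have : q + e l d + e i (-a) + e j (-b) = q + e i (-a) + e j (-b) + e l d := by abel
      rwa [this] at s4
    have hul : q + e i (-a) + e j (-b) + e k c ∈ U := by
      have s1 : ¬ (q + e j b + e k c + e i (-a) ∈ U) := by
        rw [← flip3 hG hj hk hi hjk hq hb hc ha h1]
        have : q + e j b + e k c + e i a = q + e i a + e j b + e k c := by abel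
        rw [this]; exact habc
      have s2 : ¬ (q + e k c + e i (-a) + e j b ∈ U) := by
        have : q + e k c + e i (-a) + e j b = q + e j b + e k c + e i (-a) := by abel
        rw [this]; exact s1
      have s3 := (flip3 hG hk hi hj hik.symm hq hc ha' hb' h1)
      rw [neg_neg] at s3
      have s4 := s3.2 s2
      have : q + e k c + e i (-a) + e j (-b) = q + e i (-a) + e j (-b) + e k c := by abel
      rwa [this] at s4
    -- two full points at distance two
    have hF1 : Full U K (q + e i (-a) + e j (-b) + e l d + e k (-c)) := by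
      apply DL hG hk (((hq.add hi _).add hj _).add hl _) hc huk
      have : q + e i (-a) + e j (-b) + e l d + e k c = q + e i (-a) + e j (-b) + e k c + e l d := by
        abel
      rw [this]; exact hu
    have hF2 : Full U K (q + e i (-a) + e j (-b) + e k c + e l (-d)) :=
      DL hG hl (((hq.add hi _).add hj _).add hk _) hd hul hu
    have hrel : q + e i (-a) + e j (-b) + e k c + e l (-d) =
        (q + e i (-a) + e j (-b) + e l d + e k (-c)) + e k (-c) + e l d := by
      have e1 : e k c = (e k (-c) + e k (-c) : Fin n → ZMod 3) := by rw [e_add, z3_negtwo]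
      have e2 : e l (-d) = (e l d + e l d : Fin n → ZMod 3) := by rw [e_add, z3_two]
      rw [e1, e2]; abel
    rw [hrel] at hF2
    exact dist2 hG hk hl hkl (by simpa using hc) hd hF1 hF2
  -- v = (-a,b,c,d) ∈ U
  have hv : q + e i (-a) + e j b + e k c + e l d ∈ U := by
    have hnot : ¬ (q + e k c + e l d + e i (-a) ∈ U) := by
      rw [← flip3 hG hk hl hi hkl hq hc hd ha h1]
      have : q + e k c + e l d + e i a = q + e i a + e k c + e l d := by abel
      rw [this]; exact hacd
    obtain ⟨c', hc'⟩ := hG.line (q + e k c + e l d + e i (-a))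
      (((hq.add hk _).add hl _).add hi _) j hj
    rcases z3_cases c' hb with h' | h' | h'
    · subst h'; exfalso; apply hnot; simpa [e_zero] using hc'
    · subst h'
      have : q + e k c + e l d + e i (-a) + e j c' = q + e i (-a) + e j c' + e k c + e l d := by
        abel
      rwa [this] at hc'
    · subst h'
      exfalso; apply hu
      have : q + e k c + e l d + e i (-a) + e j (-b) = q + e i (-a) + e j (-b) + e k c + e l d := by
        abel
      rwa [this] at hc'
  -- double line {v \ i, v}
  have hF := DL hG hi (y := q + e j b + e k c + e l d) (((hq.add hj _).add hk _).add hl _)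
    (c := -a) ha' hbcd (by
      have : q + e j b + e k c + e l d + e i (-a) = q + e i (-a) + e j b + e k c + e l d := by abel
      rw [this]; exact hv)
  rw [neg_neg] at hF
  have : q + e j b + e k c + e l d + e i a = q + e i a + e j b + e k c + e l d := by abel
  rwa [this] at hF

/-- signs -/
def sg (s : ZMod 2) : ZMod 3 := if s = 0 then 1 else -1

theorem sg_ne (s : ZMod 2) : sg s ≠ 0 := by revert s; decide

theorem sg_flip (s : ZMod 2) : sg (s + 1) = - sg s := by revert s; decide

open Classical in
noncomputable def eps (U : Finset (Fin n → ZMod 3)) (q : Fin n → ZMod 3) (i j k : Fin n) : ZMod 2 :=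
  if q + e i 1 + e j 1 + e k 1 ∈ U then 1 else 0

theorem eps_comm12 (U : Finset (Fin n → ZMod 3)) (q : Fin n → ZMod 3) (i j k : Fin n) :
    eps U q i j k = eps U q j i k := by
  unfold eps
  rw [add_right_comm q]

theorem eps_comm23 (U : Finset (Fin n → ZMod 3)) (q : Fin n → ZMod 3) (i j k : Fin n) :
    eps U q i j k = eps U q i k j := by
  unfold eps
  rw [add_right_comm (q + e i 1)]

theorem z2_cases (s : ZMod 2) : s = 0 ∨ s = 1 := by revert s; decide

theorem mem_iff_eps (hG : Good U K q0) {i j k : Fin n} (hi : i ∈ K) (hj : j ∈ K) (hk : k ∈ K)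
    (hij : i ≠ j) (hik : i ≠ k) (hjk : j ≠ k) {q : Fin n → ZMod 3} (hq : Cos K q0 q)
    (h1 : Full U K q) (s t r : ZMod 2) :
    q + e i (sg s) + e j (sg t) + e k (sg r) ∈ U ↔ eps U q i j k + s + t + r = 1 := by
  -- three flips
  have F3 : ∀ s t r : ZMod 2, (q + e i (sg s) + e j (sg t) + e k (sg (r + 1)) ∈ U ↔
      ¬ (q + e i (sg s) + e j (sg t) + e k (sg r) ∈ U)) := by
    intro s t r
    have := flip3 hG hi hj hk hij hq (sg_ne s) (sg_ne t) (sg_ne (r + 1)) h1
    rwa [sg_flip, neg_neg, ← sg_flip] at this
  have F2 : ∀ s t r : ZMod 2, (q + e i (sg s) + e j (sg (t + 1)) + e k (sg r) ∈ U ↔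
      ¬ (q + e i (sg s) + e j (sg t) + e k (sg r) ∈ U)) := by
    intro s t r
    have := flip3 hG hi hk hj hik hq (sg_ne s) (sg_ne r) (sg_ne (t + 1)) h1
    rw [sg_flip, neg_neg, ← sg_flip] at this
    have e1 : q + e i (sg s) + e k (sg r) + e j (sg (t + 1)) =
      q + e i (sg s) + e j (sg (t + 1)) + e k (sg r) := by abel
    have e2 : q + e i (sg s) + e k (sg r) + e j (sg t) =
      q + e i (sg s) + e j (sg t) + e k (sg r) := by abel
    rwa [e1, e2] at this
  have F1 : ∀ s t r : ZMod 2, (q + e i (sg (s + 1)) + e j (sg t) + e k (sg r) ∈ U ↔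
      ¬ (q + e i (sg s) + e j (sg t) + e k (sg r) ∈ U)) := by
    intro s t r
    have := flip3 hG hj hk hi hjk hq (sg_ne t) (sg_ne r) (sg_ne (s + 1)) h1
    rw [sg_flip, neg_neg, ← sg_flip] at this
    have e1 : q + e j (sg t) + e k (sg r) + e i (sg (s + 1)) =
      q + e i (sg (s + 1)) + e j (sg t) + e k (sg r) := by abel
    have e2 : q + e j (sg t) + e k (sg r) + e i (sg s) =
      q + e i (sg s) + e j (sg t) + e k (sg r) := by abel
    rwa [e1, e2] at this
  have base : q + e i (sg 0) + e j (sg 0) + e k (sg 0) ∈ U ↔ eps U q i j k = 1 := by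
    unfold eps sg
    simp
  have h01 : (1 : ZMod 2) = 0 + 1 := by decide
  generalize hE : eps U q i j k = E at *
  have hE' := z2_cases E
  rcases z2_cases s with rfl | rfl <;> rcases z2_cases t with rfl | rfl <;>
    rcases z2_cases r with rfl | rfl
  · rw [base]; simp
  · rw [h01, F3, base]; rcases hE' with rfl | rfl <;> decide
  · rw [h01, F2, base]; rcases hE' with rfl | rfl <;> decide
  · rw [h01, F3, F2, base]; rcases hE' with rfl | rfl <;> decide
  · rw [h01, F1, base]; rcases hE' with rfl | rfl <;> decide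
  · rw [h01, F3, F1, base]; rcases hE' with rfl | rfl <;> decide
  · rw [h01, F2, F1, base]; rcases hE' with rfl | rfl <;> decide
  · rw [h01, F3, F2, F1, base]; rcases hE' with rfl | rfl <;> decide

theorem no_violation (hG : Good U K q0) {i j k l m : Fin n} (hi : i ∈ K) (hj : j ∈ K) (hk : k ∈ K)
    (hl : l ∈ K) (hm : m ∈ K) (hij : i ≠ j) (hik : i ≠ k) (hil : i ≠ l) (him : i ≠ m)
    (hjk : j ≠ k) (hjl : j ≠ l) (hjm : j ≠ m) (hkl : k ≠ l) (hkm : k ≠ m) (hlm : l ≠ m)
    {q : Fin n → ZMod 3} (hq : Cos K q0 q) (h1 : Full U K q)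
    (hA : eps U q i j l + eps U q i j m = eps U q i k l + eps U q i k m)
    (hB : eps U q i j l + eps U q i j m = eps U q j k l + eps U q j k m) : False := by
  have M : ∀ {x y z : Fin n}, x ∈ K → y ∈ K → z ∈ K → x ≠ y → x ≠ z → y ≠ z →
      ∀ s t r : ZMod 2, (q + e x (sg s) + e y (sg t) + e z (sg r) ∈ U ↔
        eps U q x y z + s + t + r = 1) :=
    fun hx hy hz hxy hxz hyz s t r => mem_iff_eps hG hx hy hz hxy hxz hyz hq h1 s t r
  generalize e1 : eps U q i j k = A at *
  generalize e2 : eps U q i j l = B at *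
  generalize e3 : eps U q i k l = C at *
  generalize e4 : eps U q j k l = D at *
  generalize e5 : eps U q i j m = B' at *
  generalize e6 : eps U q i k m = C' at *
  generalize e7 : eps U q j k m = D' at *
  -- signs
  have key1 : ∀ A B C D : ZMod 2,
      A + (1 + A + B + C) + (1 + A + B + D) + (1 + A + C + D) = 1 ∧
      B + (1 + A + B + C) + (1 + A + B + D) + (1 + B + C + D) = 1 ∧
      C + (1 + A + B + C) + (1 + A + C + D) + (1 + B + C + D) = 1 ∧
      D + (1 + A + B + D) + (1 + A + C + D) + (1 + B + C + D) = 1 := by decide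
  have key2 : ∀ A B C D B' C' D' : ZMod 2, B + B' = C + C' → B + B' = D + D' →
      (1 + A + B + C) = (1 + A + B' + C') ∧ (1 + A + B + D) = (1 + A + B' + D') ∧
      (1 + A + C + D) = (1 + A + C' + D') := by decide
  obtain ⟨s1, s2, s3⟩ := key2 A B C D B' C' D' hA hB
  have F1 : Full U K (q + e i (sg (1 + A + B + C)) + e j (sg (1 + A + B + D)) +
      e k (sg (1 + A + C + D)) + e l (sg (1 + B + C + D))) := by
    obtain ⟨k1, k2, k3, k4⟩ := key1 A B C D
    apply full4 hG hi hj hk hl hij hik hil hjk hjl hkl hq (sg_ne _) (sg_ne _) (sg_ne _) (sg_ne _) h1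
    · rw [M hi hj hk hij hik hjk, e1]; exact k1
    · rw [M hi hj hl hij hil hjl, e2]; exact k2
    · rw [M hi hk hl hik hil hkl, e3]; exact k3
    · rw [M hj hk hl hjk hjl hkl, e4]; exact k4
  have F2 : Full U K (q + e i (sg (1 + A + B + C)) + e j (sg (1 + A + B + D)) +
      e k (sg (1 + A + C + D)) + e m (sg (1 + B' + C' + D'))) := by
    rw [s1, s2, s3]
    obtain ⟨k1, k2, k3, k4⟩ := key1 A B' C' D'
    apply full4 hG hi hj hk hm hij hik him hjk hjm hkm hq (sg_ne _) (sg_ne _) (sg_ne _) (sg_ne _) h1
    · rw [M hi hj hk hij hik hjk, e1]; exact k1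
    · rw [M hi hj hm hij him hjm, e5]; exact k2
    · rw [M hi hk hm hik him hkm, e6]; exact k3
    · rw [M hj hk hm hjk hjm hkm, e7]; exact k4
  have hrel : q + e i (sg (1 + A + B + C)) + e j (sg (1 + A + B + D)) +
      e k (sg (1 + A + C + D)) + e m (sg (1 + B' + C' + D')) =
      (q + e i (sg (1 + A + B + C)) + e j (sg (1 + A + B + D)) +
      e k (sg (1 + A + C + D)) + e l (sg (1 + B + C + D))) + e l (-sg (1 + B + C + D)) +
      e m (sg (1 + B' + C' + D')) := by
    rw [add_assoc (q + e i (sg (1 + A + B + C)) + e j (sg (1 + A + B + D)) +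
      e k (sg (1 + A + C + D))) (e l (sg (1 + B + C + D))), e_add]
    simp [e_zero]
  rw [hrel] at F2
  exact dist2 hG hl hm hlm (by simpa using sg_ne (1 + B + C + D)) (sg_ne _) F1 F2

end

/-- a two-colouring of the edges of `K_5` without monochromatic triangle has an odd number of
edges of colour `1` -/
theorem k5 : ∀ a b c d x y z u v w : ZMod 2,
    ¬ (a = b ∧ a = x) → ¬ (a = c ∧ a = y) → ¬ (a = d ∧ a = z) → ¬ (b = c ∧ b = u) →
    ¬ (b = d ∧ b = v) → ¬ (c = d ∧ c = w) → ¬ (x = y ∧ x = u) → ¬ (x = z ∧ x = v) →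
    ¬ (y = z ∧ y = w) → ¬ (u = v ∧ u = w) → a + b + c + d + x + y + z + u + v + w = 1 := by
  intro a b c d x y z u v w
  have key : ∀ a b c d x y z u v w : ZMod 2,
      (¬ (a = b ∧ a = x) ∧ ¬ (a = c ∧ a = y) ∧ ¬ (a = d ∧ a = z) ∧ ¬ (b = c ∧ b = u) ∧
      ¬ (b = d ∧ b = v) ∧ ¬ (c = d ∧ c = w) ∧ ¬ (x = y ∧ x = u) ∧ ¬ (x = z ∧ x = v) ∧
      ¬ (y = z ∧ y = w) ∧ ¬ (u = v ∧ u = w)) → a + b + c + d + x + y + z + u + v + w = 1 := by
    intro a b c d
    rcases z2_cases a with rfl | rfl <;> rcases z2_cases b with rfl | rfl <;>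
      rcases z2_cases c with rfl | rfl <;> rcases z2_cases d with rfl | rfl <;> decide
  intro h1 h2 h3 h4 h5 h6 h7 h8 h9 h10
  exact key a b c d x y z u v w ⟨h1, h2, h3, h4, h5, h6, h7, h8, h9, h10⟩

section
variable {U : Finset (Fin n → ZMod 3)} {K : Finset (Fin n)} {q0 : Fin n → ZMod 3}

theorem no_full (hG : Good U K q0) (κ : Fin 7 → Fin n) (hκ : Function.Injective κ)
    (hκK : ∀ t, κ t ∈ K) {q : Fin n → ZMod 3} (hq : Cos K q0 q) (h1 : Full U K q) : False := by
  set E : Fin 7 → Fin 7 → Fin 7 → ZMod 2 := fun i j k => eps U q (κ i) (κ j) (κ k) with hE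
  have c12 : ∀ i j k, E i j k = E j i k := fun i j k => eps_comm12 U q _ _ _
  have c23 : ∀ i j k, E i j k = E i k j := fun i j k => eps_comm23 U q _ _ _
  have T : ∀ i j k l m : Fin 7, [i, j, k, l, m].Nodup →
      ¬ (E i j l + E i j m = E i k l + E i k m ∧ E i j l + E i j m = E j k l + E j k m) := by
    intro i j k l m hd h
    simp only [List.nodup_cons, List.mem_cons, List.not_mem_nil, or_false, not_or,
      List.nodup_nil, and_true, not_false_eq_true] at hd
    obtain ⟨⟨hij, hik, hil, him⟩, ⟨hjk, hjl, hjm⟩, ⟨hkl, hkm⟩, hlm⟩ := hd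
    exact no_violation hG (hκK i) (hκK j) (hκK k) (hκK l) (hκK m) (hκ.ne hij) (hκ.ne hik)
      (hκ.ne hil) (hκ.ne him) (hκ.ne hjk) (hκ.ne hjl) (hκ.ne hjm) (hκ.ne hkl) (hκ.ne hkm)
      (hκ.ne hlm) hq h1 h.1 h.2
  have P : ∀ l m p1 p2 p3 p4 p5 : Fin 7, [l, m, p1, p2, p3, p4, p5].Nodup →
      (E p1 p2 l + E p1 p2 m) + (E p1 p3 l + E p1 p3 m) + (E p1 p4 l + E p1 p4 m) +
      (E p1 p5 l + E p1 p5 m) + (E p2 p3 l + E p2 p3 m) + (E p2 p4 l + E p2 p4 m) +
      (E p2 p5 l + E p2 p5 m) + (E p3 p4 l + E p3 p4 m) + (E p3 p5 l + E p3 p5 m) +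
      (E p4 p5 l + E p4 p5 m) = 1 := by
    intro l m p1 p2 p3 p4 p5 hd
    have N : ∀ i j k : Fin 7, [i, j, k, l, m].Nodup →
      ¬ (E i j l + E i j m = E i k l + E i k m ∧ E i j l + E i j m = E j k l + E j k m) :=
      fun i j k h => T i j k l m h
    simp only [List.nodup_cons, List.mem_cons, List.not_mem_nil, or_false, not_or,
      List.nodup_nil, and_true, not_false_eq_true] at hd
    obtain ⟨⟨a1, a2, a3, a4, a5, a6⟩, ⟨b2, b3, b4, b5, b6⟩, ⟨d3, d4, d5, d6⟩, ⟨f4, f5, f6⟩,
      ⟨g5, g6⟩, k6⟩ := hd
    have a2' := Ne.symm a2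
    have a3' := Ne.symm a3
    have a4' := Ne.symm a4
    have a5' := Ne.symm a5
    have a6' := Ne.symm a6
    have b2' := Ne.symm b2
    have b3' := Ne.symm b3
    have b4' := Ne.symm b4
    have b5' := Ne.symm b5
    have b6' := Ne.symm b6
    apply k5
    · exact N p1 p2 p3 (by simp [*])
    · exact N p1 p2 p4 (by simp [*])
    · exact N p1 p2 p5 (by simp [*])
    · exact N p1 p3 p4 (by simp [*])
    · exact N p1 p3 p5 (by simp [*])
    · exact N p1 p4 p5 (by simp [*])
    · exact N p2 p3 p4 (by simp [*])
    · exact N p2 p3 p5 (by simp [*])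
    · exact N p2 p4 p5 (by simp [*])
    · exact N p3 p4 p5 (by simp [*])
  have P1 := P 0 1 2 3 4 5 6 (by decide)
  have P2 := P 0 2 1 3 4 5 6 (by decide)
  have P3 := P 1 2 0 3 4 5 6 (by decide)
  have r1 : ∀ a : Fin 7, E 2 a 0 = E 0 a 2 := fun a => by rw [c12, c23, c12]
  have r2 : ∀ a : Fin 7, E 2 a 1 = E 1 a 2 := fun a => by rw [c12, c23, c12]
  have r3 : ∀ a : Fin 7, E 1 a 0 = E 0 a 1 := fun a => by rw [c12, c23, c12]
  have two : (2 : ZMod 2) = 0 := by decide
  have h3 : (3 : ZMod 2) = 0 := by
    simp only [r1, r2, r3] at P1 P2 P3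
    linear_combination -P1 - P2 - P3 + (E 0 3 2 + E 1 3 2 + E 0 4 2 + E 1 4 2 + E 0 5 2 + E 1 5 2 +
      E 0 6 2 + E 1 6 2 + E 0 3 1 + E 0 4 1 + E 0 5 1 + E 0 6 1 +
      E 3 4 0 + E 3 5 0 + E 3 6 0 + E 4 5 0 + E 4 6 0 + E 5 6 0 +
      E 3 4 1 + E 3 5 1 + E 3 6 1 + E 4 5 1 + E 4 6 1 + E 5 6 1 +
      E 3 4 2 + E 3 5 2 + E 3 6 2 + E 4 5 2 + E 4 6 2 + E 5 6 2) * two
  exact absurd h3 (by decide)

end

theorem card_lines (i0 : Fin n) :
    ((univ : Finset (Fin n → ZMod 3)).filter fun x => x i0 = 0).card = 3 ^ (n - 1) := by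
  have h : ((univ : Finset (Fin n → ZMod 3)).filter fun x => x i0 = 0) =
      Fintype.piFinset (fun i => if i = i0 then ({0} : Finset (ZMod 3)) else univ) := by
    ext x
    simp only [mem_filter, mem_univ, true_and, Fintype.mem_piFinset]
    constructor
    · intro hx i
      by_cases hi : i = i0
      · subst hi; simp [hx]
      · simp [hi]
    · intro hx
      simpa using hx i0
  rw [h, Fintype.card_piFinset]
  rw [← Finset.mul_prod_erase univ _ (mem_univ i0)]
  rw [Finset.prod_congr rfl (g := fun _ => 3)]
  · simp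
  · intro i hi
    rw [mem_erase] at hi
    simp [hi.1]

theorem update_eq_add (x : Fin n → ZMod 3) (i : Fin n) (c : ZMod 3) :
    Function.update x i c = x + e i (c - x i) := by
  ext j
  by_cases h : j = i
  · subst h; simp [e]
  · simp [e, Function.update_of_ne h, Pi.single_eq_of_ne h]

theorem result (n : ℕ) (U : Finset (Fin n → ZMod 3))
    (hdeg : ∀ u ∈ U, (U.filter fun v => hammingDist u v = 1).card ≤ 1)
    (K : Finset (Fin n)) (hK : K.card = 7) :
    U.card ≤ 3 ^ (n - 1) + 729 * ((K ×ˢ (univ : Finset (Fin n → ZMod 3))).filter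
      fun p => p.2 p.1 = 0 ∧ ∀ c : ZMod 3, Function.update p.2 p.1 c ∉ U).card := by
  classical
  set M := (K ×ˢ (univ : Finset (Fin n → ZMod 3))).filter
      fun p => p.2 p.1 = 0 ∧ ∀ c : ZMod 3, Function.update p.2 p.1 c ∉ U with hM
  obtain ⟨i0, hi0⟩ : K.Nonempty := by
    rw [← Finset.card_pos]; omega
  -- injection of seven directions
  let κ : Fin 7 → Fin n := fun t => (K.orderEmbOfFin hK t)
  have hκ : Function.Injective κ := (K.orderEmbOfFin hK).injective
  have hκK : ∀ t, κ t ∈ K := fun t => K.orderEmbOfFin_mem hK t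
  set L := (univ : Finset (Fin n → ZMod 3)).filter fun x => x i0 = 0 with hL
  set Bad := L.filter fun x => 1 < (U.filter fun u => Function.update u i0 0 = x).card with hBad
  have h1 : U.card ≤ L.card + Bad.card := by
    have hmaps : ∀ u ∈ U, Function.update u i0 0 ∈ L := by
      intro u _; simp [hL]
    rw [Finset.card_eq_sum_card_fiberwise hmaps]
    have hfib : ∀ x ∈ L, (U.filter fun u => Function.update u i0 0 = x).card ≤
        1 + if 1 < (U.filter fun u => Function.update u i0 0 = x).card then 1 else 0 := by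
      intro x _
      have hle2 : (U.filter fun u => Function.update u i0 0 = x).card ≤ 2 := by
        rcases (U.filter fun u => Function.update u i0 0 = x).eq_empty_or_nonempty with h | ⟨u, hu⟩
        · rw [h]; simp
        · rw [mem_filter] at hu
          have hsub : (U.filter fun u => Function.update u i0 0 = x) ⊆
              insert u (U.filter fun v => hammingDist u v = 1) := by
            intro v hv
            rw [mem_filter] at hv
            rw [mem_insert, mem_filter]
            by_cases hvu : v = u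
            · exact Or.inl hvu
            · refine Or.inr ⟨hv.1, ?_⟩
              have hEq : Function.update v i0 0 = Function.update u i0 0 := hv.2.trans hu.2.symm
              have hv' : v = u + e i0 (v i0 - u i0) := by
                ext j
                by_cases hj : j = i0
                · subst hj; simp [e]
                · have := congrFun hEq j
                  simp [Function.update_of_ne hj] at this
                  simp [e, Pi.single_eq_of_ne hj, this]
              rw [hv']
              apply hd_single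
              intro h0
              apply hvu
              rw [hv', h0]; simp
          calc _ ≤ (insert u (U.filter fun v => hammingDist u v = 1)).card := card_le_card hsub
            _ ≤ (U.filter fun v => hammingDist u v = 1).card + 1 := card_insert_le _ _
            _ ≤ 2 := by have := hdeg u hu.1; omega
      split_ifs with h <;> omega
    calc _ ≤ ∑ x ∈ L, (1 + if 1 < (U.filter fun u => Function.update u i0 0 = x).card
          then 1 else 0) := Finset.sum_le_sum hfib
      _ = L.card + Bad.card := by
        have e1 : Bad.card = ∑ x ∈ L, if 1 < (U.filter fun u => Function.update u i0 0 = x).card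
            then 1 else 0 := Finset.card_filter _ L
        rw [Finset.sum_add_distrib, ← Finset.card_eq_sum_ones, e1]
  have h2 : Bad.card ≤ M.card * 729 := by
    -- every bad line sees a missed line in its coset
    have hex : ∀ x ∈ Bad, ∃ p ∈ M, ∀ i, i ∉ K → p.2 i = x i := by
      intro x hx
      by_contra hno
      push Not at hno
      have hG : Good U K x := by
        refine ⟨hdeg, ?_⟩
        intro z hz i hi
        by_contra hc
        push Not at hc
        obtain ⟨j, hjK, hj⟩ := hno (i, Function.update z i 0) (by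
          simp only [hM, mem_filter, mem_product, mem_univ, and_true, Function.update_self,
            true_and]
          refine ⟨hi, ?_⟩
          intro c
          simp only [Function.update_idem]
          rw [update_eq_add]
          exact hc _)
        apply hj
        have hji : j ≠ i := fun h => hjK (h ▸ hi)
        simp only [Function.update_of_ne hji]
        exact hz j hjK
      rw [hBad, mem_filter, Finset.one_lt_card] at hx
      obtain ⟨hxL, u, hu, v, hv, huv⟩ := hx
      rw [mem_filter] at hu hv
      have hv' : v = u + e i0 (v i0 - u i0) := by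
        have hEq : Function.update v i0 0 = Function.update u i0 0 := hv.2.trans hu.2.symm
        ext j
        by_cases hj : j = i0
        · subst hj; simp [e]
        · have := congrFun hEq j
          simp [Function.update_of_ne hj] at this
          simp [e, Pi.single_eq_of_ne hj, this]
      have hc : v i0 - u i0 ≠ 0 := by
        intro h0
        apply huv
        rw [hv', h0]; simp
      have huC : Cos K x u := by
        intro j hj
        have hji : j ≠ i0 := fun h => hj (h ▸ hi0)
        have := congrFun hu.2 j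
        rwa [Function.update_of_ne hji] at this
      have hvU : u + e i0 (v i0 - u i0) ∈ U := hv' ▸ hv.1
      have hF := DL hG hi0 huC hc hu.1 hvU
      exact no_full hG κ hκ hκK (huC.add hi0 _) hF
    have : Nonempty (Fin n × (Fin n → ZMod 3)) := ⟨(i0, 0)⟩
    choose! φ hφM hφ using hex
    have hinj : Set.InjOn (fun x : Fin n → ZMod 3 =>
        (φ x, fun i : {i // i ∈ K.erase i0} => x i)) (Bad : Set (Fin n → ZMod 3)) := by
      intro x hx y hy hxy
      simp only [Prod.mk.injEq] at hxy
      obtain ⟨ha, hb⟩ := hxy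
      have hx' := Finset.mem_coe.1 hx
      have hy' := Finset.mem_coe.1 hy
      ext j
      by_cases hj : j ∈ K
      · by_cases hj0 : j = i0
        · subst hj0
          have e1 : x j = 0 := by
            have := (mem_filter.1 hx').1; rw [hL, mem_filter] at this; exact this.2
          have e2 : y j = 0 := by
            have := (mem_filter.1 hy').1; rw [hL, mem_filter] at this; exact this.2
          rw [e1, e2]
        · have := congrFun hb ⟨j, mem_erase.2 ⟨hj0, hj⟩⟩
          simpa using this
      · rw [← hφ x hx' j hj, ← hφ y hy' j hj, ha]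
    have hle := Finset.card_le_card_of_injOn (s := Bad) (t := M ×ˢ
      (univ : Finset ({i // i ∈ K.erase i0} → ZMod 3))) _ (by
        intro x hx
        simp only [coe_product, coe_univ, Set.mem_prod, Set.mem_univ, and_true]
        exact hφM x hx) hinj
    rw [card_product, Finset.card_univ, Fintype.card_fun, ZMod.card, Fintype.card_coe,
      card_erase_of_mem hi0, hK] at hle
    simpa using hle
  rw [card_lines] at h1
  omega

end Pool.Agent.Results.MP_669823_co.MissedLines
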